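import Mathlib
import Pool.Agent.R202.Rot

/-!
# Measures invariant under multiplication by all finite sums of a sequence

An atomless probability measure on the circle which is invariant under `x ↦ m x` for all the finite
sums `m` of distinct terms of some sequence (more generally for all the sums of subfamilies of
arbitrarily long finite families of integers) is Lebesgue measure.
-/

set_option autoImplicit false

open MeasureTheory Filter Topology Set
open scoped ENNReal

namespace Pool.Agent.Results.MP_96e181_an.FiniteSums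

/-- `|(1 + e(n x)) / 2| = |cos (π n x)|` -/
noncomputable def hc (n : ℤ) (x : UnitAddCircle) : ℝ := ‖(1 + (fourier n x : ℂ)) / 2‖

lemma hc_nonneg (n : ℤ) (x : UnitAddCircle) : 0 ≤ hc n x := norm_nonneg _

lemma norm_fourier (n : ℤ) (x : UnitAddCircle) : ‖(fourier n x : ℂ)‖ = 1 := by
  rw [fourier_apply]
  exact Circle.norm_coe _

lemma hc_le (n : ℤ) (x : UnitAddCircle) : hc n x ≤ 1 := by
  unfold hc
  rw [norm_div, Complex.norm_ofNat, div_le_one (by norm_num)]
  calc ‖1 + (fourier n x : ℂ)‖ ≤ ‖(1 : ℂ)‖ + ‖(fourier n x : ℂ)‖ := norm_add_le _ _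
    _ = 2 := by rw [norm_fourier, norm_one]; norm_num

lemma hc_cont (n : ℤ) : Continuous (hc n) := by
  unfold hc
  fun_prop

lemma hc_eq_one {n : ℤ} {x : UnitAddCircle} (h : hc n x = 1) : (fourier n x : ℂ) = 1 := by
  unfold hc at h
  rw [norm_div, Complex.norm_ofNat, div_eq_one_iff_eq (by norm_num)] at h
  set z : ℂ := fourier n x with hz
  have h1 : ‖z‖ = 1 := norm_fourier n x
  have h2 : ‖1 + z‖ ^ 2 = 4 := by rw [h]; norm_num
  have h3 : ‖z‖ ^ 2 = 1 := by rw [h1]; norm_num
  rw [← Complex.normSq_eq_norm_sq, Complex.normSq_apply] at h2 h3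
  simp only [Complex.add_re, Complex.one_re, Complex.add_im, Complex.one_im, zero_add] at h2
  have h4 : z.re = 1 := by nlinarith
  have h5 : z.im = 0 := by
    rw [h4] at h3
    nlinarith
  exact Complex.ext h4 h5

lemma hc_eq_one_iff {n : ℤ} {x : UnitAddCircle} (h : hc n x = 1) : n • x = 0 := by
  have h1 := hc_eq_one h
  rw [fourier_apply] at h1
  have h2 : AddCircle.toCircle (n • x) = 1 := by
    apply Subtype.ext
    rw [h1]
    rfl
  have h3 : AddCircle.toCircle (n • x) = AddCircle.toCircle (0 : UnitAddCircle) := by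
    rw [h2, AddCircle.toCircle_zero]
  exact AddCircle.injective_toCircle one_ne_zero h3

lemma torsion_null (ν : Measure UnitAddCircle) (hna : ∀ x, ν {x} = 0) {n : ℤ} (hn : n ≠ 0) :
    ν {x | hc n x = 1} = 0 := by
  have hfin : {x : UnitAddCircle | hc n x = 1}.Finite := by
    refine (AddCircle.finite_torsion (1 : ℝ) (Int.natAbs_pos.2 hn)).subset fun x hx => ?_
    have h1 := hc_eq_one_iff hx
    show n.natAbs • x = 0
    rcases Int.natAbs_eq n with h | h
    · rw [h, natCast_zsmul] at h1
      exact h1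
    · rw [h, neg_smul, natCast_zsmul, neg_eq_zero] at h1
      exact h1
  have : NullSingletonClass ν := ⟨hna⟩
  exact hfin.measure_zero ν

lemma measurable_smul_int (m : ℤ) : Measurable fun x : UnitAddCircle => m • x :=
  (continuous_zsmul m).measurable

lemma int_map {μ ν : Measure UnitAddCircle} (m : ℤ) (h : μ.map (fun x => m • x) = ν) {E : Type*}
    [NormedAddCommGroup E] [NormedSpace ℝ E] [SecondCountableTopology E] (f : UnitAddCircle → E) (hf : Continuous f) :
    ∫ x, f (m • x) ∂μ = ∫ x, f x ∂ν := by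
  rw [← h, integral_map (measurable_smul_int m).aemeasurable]
  exact hf.aestronglyMeasurable

lemma prod_fourier {K : ℕ} (a : Fin K → ℤ) (n : ℤ) (F : Finset (Fin K)) (x : UnitAddCircle) :
    ∏ i ∈ F, (fourier n (a i • x) : ℂ) = fourier n ((∑ i ∈ F, a i) • x) := by
  classical
  induction F using Finset.induction_on with
  | empty => simp
  | insert i s hi ih =>
    rw [Finset.prod_insert hi, ih, Finset.sum_insert hi, add_smul]
    rw [fourier_apply, fourier_apply, fourier_apply, ← Circle.coe_mul, ← AddCircle.toCircle_add, smul_add]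

lemma prod_le_avg {K : ℕ} (hK : 0 < K) (t : Fin K → ℝ) (ht : ∀ i, 0 ≤ t i) :
    ∏ i, t i ≤ (1 / K : ℝ) * ∑ i, t i ^ K := by
  have hK' : (0 : ℝ) < K := by exact_mod_cast hK
  have h := Real.geom_mean_le_arith_mean_weighted Finset.univ (fun _ : Fin K => (1 / K : ℝ))
    (fun i => t i ^ K) (fun _ _ => by positivity) (by
      rw [Finset.sum_const, Finset.card_univ, Fintype.card_fin, nsmul_eq_mul]
      field_simp) (fun i _ => pow_nonneg (ht i) K)
  have e : ∀ i, (t i ^ K) ^ (1 / K : ℝ) = t i := by
    intro i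
    rw [one_div]
    exact Real.pow_rpow_inv_natCast (ht i) hK.ne'
  simp_rw [e] at h
  rw [Finset.mul_sum]
  exact h

/-- the basic inequality -/
theorem ineq (μ ν : Measure UnitAddCircle) [IsProbabilityMeasure μ] [IsProbabilityMeasure ν] (K : ℕ)
    (hK : 0 < K) (a : Fin K → ℤ)
    (h : ∀ F : Finset (Fin K), F.Nonempty → μ.map (fun x => (∑ i ∈ F, a i) • x) = ν) (n : ℤ) :
    ‖∫ x, (fourier n x : ℂ) ∂ν‖ ≤ 2 / 2 ^ K + ∫ x, hc n x ^ K ∂ν := by
  classical
  set c : ℂ := ∫ x, (fourier n x : ℂ) ∂ν with hcdef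
  have hcn : ‖c‖ ≤ 1 := by
    have := norm_integral_le_of_norm_le_const (μ := ν) (f := fun x => (fourier n x : ℂ)) (C := 1)
      (Eventually.of_forall fun x => (norm_fourier n x).le)
    rw [probReal_univ, mul_one] at this
    exact this
  -- the integral of the product
  have hexp : ∀ x : UnitAddCircle, ∏ i, ((1 + (fourier n (a i • x) : ℂ)) / 2) =
      (∑ F : Finset (Fin K), (fourier n ((∑ i ∈ F, a i) • x) : ℂ)) / 2 ^ K := by
    intro x
    rw [Finset.prod_div_distrib, Finset.prod_const, Finset.card_univ, Fintype.card_fin,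
      Finset.prod_one_add, ← Finset.powerset_univ]
    congr 1
    refine Finset.sum_congr ?_ fun F _ => prod_fourier a n F x
    rw [Finset.powerset_univ]
  have hI : ∀ F : Finset (Fin K), ∫ x, (fourier n ((∑ i ∈ F, a i) • x) : ℂ) ∂μ = if F = ∅ then 1 else c := by
    intro F
    split_ifs with hF
    · subst hF
      simp
    · exact int_map _ (h F (Finset.nonempty_iff_ne_empty.2 hF)) (fun x => (fourier n x : ℂ))
        (fourier n).continuous
  have hInt : ∀ F : Finset (Fin K), Integrable (fun x => (fourier n ((∑ i ∈ F, a i) • x) : ℂ)) μ := by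
    intro F
    refine Integrable.of_bound (C := 1) ?_ (Eventually.of_forall fun x => (norm_fourier n _).le)
    exact ((fourier n).continuous.comp (continuous_zsmul _)).aestronglyMeasurable
  have hval : ∫ x, ∏ i, ((1 + (fourier n (a i • x) : ℂ)) / 2) ∂μ = (1 + (2 ^ K - 1) * c) / 2 ^ K := by
    simp_rw [hexp]
    rw [integral_div, integral_finsetSum _ fun F _ => hInt F, Finset.sum_congr rfl fun F _ => hI F]
    congr 1
    rw [Finset.sum_ite, Finset.sum_const, Finset.sum_const]
    have e1 : (Finset.univ.filter fun F : Finset (Fin K) => F = ∅).card = 1 := by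
      rw [Finset.card_eq_one]
      exact ⟨∅, by ext F; simp⟩
    have e2 : (Finset.univ.filter fun F : Finset (Fin K) => ¬ F = ∅).card = 2 ^ K - 1 := by
      have h1 := Finset.card_filter_add_card_filter_not (s := (Finset.univ : Finset (Finset (Fin K))))
        (fun F => F = ∅)
      rw [e1, Finset.card_univ, Fintype.card_finset, Fintype.card_fin] at h1
      omega
    rw [e1, e2, one_smul, nsmul_eq_mul, Nat.cast_sub Nat.one_le_two_pow]
    push_cast
    ring
  -- upper bound
  have hub : ‖∫ x, ∏ i, ((1 + (fourier n (a i • x) : ℂ)) / 2) ∂μ‖ ≤ ∫ x, hc n x ^ K ∂ν := by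
    have hKR : (0 : ℝ) < K := by exact_mod_cast hK
    have hi : ∀ i, ∫ x, hc n (a i • x) ^ K ∂μ = ∫ x, hc n x ^ K ∂ν := by
      intro i
      have h1 := h {i} (Finset.singleton_nonempty i)
      rw [Finset.sum_singleton] at h1
      exact int_map _ h1 (fun x => hc n x ^ K) ((hc_cont n).pow K)
    have hii : ∀ i, Integrable (fun x => hc n (a i • x) ^ K) μ := by
      intro i
      refine Integrable.of_bound (C := 1) ?_ (Eventually.of_forall fun x => ?_)
      · exact (((hc_cont n).comp (continuous_zsmul _)).pow K).aestronglyMeasurable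
      · rw [Real.norm_of_nonneg (pow_nonneg (hc_nonneg _ _) _)]
        exact pow_le_one₀ (hc_nonneg _ _) (hc_le _ _)
    calc ‖∫ x, ∏ i, ((1 + (fourier n (a i • x) : ℂ)) / 2) ∂μ‖
        ≤ ∫ x, ‖∏ i, ((1 + (fourier n (a i • x) : ℂ)) / 2)‖ ∂μ := norm_integral_le_integral_norm _
      _ ≤ ∫ x, (1 / K : ℝ) * ∑ i, hc n (a i • x) ^ K ∂μ := by
          refine integral_mono_of_nonneg (Eventually.of_forall fun x => norm_nonneg _)
            ((integrable_finsetSum _ fun i _ => hii i).const_mul _) (Eventually.of_forall fun x => ?_)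
          show ‖∏ i, ((1 + (fourier n (a i • x) : ℂ)) / 2)‖ ≤ _
          rw [norm_prod]
          exact prod_le_avg hK (fun i => hc n (a i • x)) fun i => hc_nonneg _ _
      _ = ∫ x, hc n x ^ K ∂ν := by
          rw [integral_const_mul, integral_finsetSum _ fun i _ => hii i, Finset.sum_congr rfl fun i _ => hi i,
            Finset.sum_const, Finset.card_univ, Fintype.card_fin, nsmul_eq_mul]
          field_simp
  rw [hval] at hub
  have e3 : c = (1 + (2 ^ K - 1) * c) / 2 ^ K - (1 - c) / 2 ^ K := by
    field_simp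
    ring
  have h4 : ‖(1 - c) / 2 ^ K‖ ≤ 2 / 2 ^ K := by
    rw [norm_div, norm_pow, Complex.norm_ofNat]
    refine div_le_div_of_nonneg_right ?_ (by positivity)
    calc ‖1 - c‖ ≤ ‖(1 : ℂ)‖ + ‖c‖ := norm_sub_le _ _
      _ ≤ 2 := by rw [norm_one]; linarith
  calc ‖c‖ = ‖(1 + (2 ^ K - 1) * c) / 2 ^ K - (1 - c) / 2 ^ K‖ := by rw [← e3]
    _ ≤ _ := norm_sub_le _ _
    _ ≤ _ := by linarith

/-- the right hand side tends to zero -/
theorem lim0 (ν : Measure UnitAddCircle) [IsProbabilityMeasure ν] (hna : ∀ x, ν {x} = 0) {n : ℤ} (hn : n ≠ 0) :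
    Tendsto (fun K : ℕ => 2 / 2 ^ K + ∫ x, hc n x ^ K ∂ν) atTop (𝓝 0) := by
  have h1 : Tendsto (fun K : ℕ => (2 : ℝ) / 2 ^ K) atTop (𝓝 0) := by
    have := (tendsto_pow_atTop_nhds_zero_of_lt_one (r := (1 / 2 : ℝ)) (by norm_num) (by norm_num)).const_mul 2
    rw [mul_zero] at this
    refine this.congr fun K => ?_
    rw [one_div, inv_pow]
    rfl
  have h2 : Tendsto (fun K : ℕ => ∫ x, hc n x ^ K ∂ν) atTop (𝓝 (∫ _x, (0 : ℝ) ∂ν)) := by
    refine tendsto_integral_of_dominated_convergence (fun _ => (1 : ℝ))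
      (fun K => ((hc_cont n).pow K).aestronglyMeasurable) (integrable_const _) (fun K => ?_) ?_
    · refine Eventually.of_forall fun x => ?_
      rw [Real.norm_of_nonneg (pow_nonneg (hc_nonneg _ _) _)]
      exact pow_le_one₀ (hc_nonneg _ _) (hc_le _ _)
    · have h3 : ∀ᵐ x ∂ν, hc n x ≠ 1 := by
        rw [ae_iff]
        simpa using torsion_null ν hna hn
      filter_upwards [h3] with x hx
      exact tendsto_pow_atTop_nhds_zero_of_lt_one (hc_nonneg _ _) (lt_of_le_of_ne (hc_le _ _) hx)
  rw [integral_zero] at h2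
  simpa using h1.add h2

lemma vol_fourier {n : ℤ} (hn : n ≠ 0) : ∫ x, (fourier n x : ℂ) ∂(volume : Measure UnitAddCircle) = 0 := by
  refine Pool.Agent.R202.coeff_zero (θ := Real.sqrt 2) irrational_sqrt_two ?_ hn
  exact (measurePreserving_add_right volume _).map_eq

/-- **Finite sums sets of multipliers are rigid.** For an integer `m` let `T_m x = m x` on the circle.

Part one. Let `ν` be an atomless probability measure on the circle, not Lebesgue measure. Then there is
`K` such that for every probability measure `μ` and all integers `a_1, ..., a_K` some nonempty subfamily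
has a sum `m` with `T_m μ ≠ ν`. In particular (`μ = ν`) the set of all `m` such that `ν` is
`T_m`-invariant contains no set of all finite sums of distinct terms of an infinite sequence of integers,
and no such sets for arbitrarily long finite sequences; no assumption on entropy or ergodicity is made.

Part two, the inequality behind it. If `T_m μ = ν` for all the sums `m` of nonempty subfamilies of
integers `a_1, ..., a_K`, then for every `n` the `n`-th Fourier coefficient of `ν` has modulus at most
`2 / 2 ^ K + ∫ |cos (π n x)| ^ K dν(x)`. -/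
theorem result :
    (∀ ν : Measure UnitAddCircle, IsProbabilityMeasure ν → (∀ x, ν {x} = 0) → ν ≠ volume →
      ∃ K : ℕ, ∀ μ : Measure UnitAddCircle, IsProbabilityMeasure μ → ∀ a : Fin K → ℤ,
        ∃ F : Finset (Fin K), F.Nonempty ∧ μ.map (fun x => (∑ i ∈ F, a i) • x) ≠ ν) ∧
    (∀ μ ν : Measure UnitAddCircle, IsProbabilityMeasure μ → IsProbabilityMeasure ν →
      ∀ K : ℕ, 0 < K → ∀ a : Fin K → ℤ,
      (∀ F : Finset (Fin K), F.Nonempty → μ.map (fun x => (∑ i ∈ F, a i) • x) = ν) →
      ∀ n : ℤ, ‖∫ x, (fourier n x : ℂ) ∂ν‖ ≤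
        2 / 2 ^ K + ∫ x, ‖(1 + (fourier n x : ℂ)) / 2‖ ^ K ∂ν) := by
  constructor
  · intro ν hν hna hne
    by_contra hcon
    push Not at hcon
    refine hne (Pool.Agent.R202.ext_fourier fun n => ?_)
    by_cases hn : n = 0
    · subst hn
      have h0 : (volume : Measure UnitAddCircle) univ = 1 := UnitAddCircle.measure_univ
      simp [measureReal_def, h0]
    · rw [vol_fourier hn]
      have h1 := lim0 ν hna hn
      have h2 : ‖∫ x, (fourier n x : ℂ) ∂ν‖ ≤ 0 := by
        refine ge_of_tendsto h1 ?_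
        filter_upwards [eventually_gt_atTop 0] with K hK
        obtain ⟨μ, hμ, a, ha⟩ := hcon K
        exact ineq μ ν K hK a ha n
      exact norm_le_zero_iff.1 h2
  · intro μ ν hμ hν K hK a ha n
    exact ineq μ ν K hK a ha n

end Pool.Agent.Results.MP_96e181_an.FiniteSums
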