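import Mathlib
import Pool.Agent.R202.Rot

/-!
# Sums of many multipliers

For an atomless probability measure `μ` on the circle, invariant under `x ↦ p x`, the Fourier coefficients
at sums of `r` multipliers preserving `μ` are small in square mean, uniformly in the set of multipliers,
as `r` tends to infinity.
-/

set_option autoImplicit false

open MeasureTheory Filter Topology Set
open scoped ENNReal

namespace Pool.Agent.Results.MP_96e181_an.SumsetDecay

lemma norm_fourier (n : ℤ) (x : UnitAddCircle) : ‖(fourier n x : ℂ)‖ = 1 := by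
  rw [fourier_apply]
  exact Circle.norm_coe _

lemma fourier_nsmul (n : ℤ) (s : ℕ) (x : UnitAddCircle) :
    (fourier n (s • x) : ℂ) = fourier (n * s) x := by
  rw [fourier_apply, fourier_apply, mul_smul, natCast_zsmul]

lemma fourier_sub_pt (n : ℤ) (x y : UnitAddCircle) :
    (fourier n (x - y) : ℂ) = fourier n x * fourier (-n) y := by
  rw [fourier_apply, fourier_apply, fourier_apply, ← Circle.coe_mul, ← AddCircle.toCircle_add,
    neg_smul, smul_sub, sub_eq_add_neg]

/-- the elementary estimate: if the average of the unimodular numbers `e s`, `s ∈ S`, is nearly unimodular,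
then `e (p s)` is near `e s` for most `s` -/
lemma core {e : ℕ → ℂ} (he : ∀ s, ‖e s‖ = 1) (S : Finset ℕ) {p : ℕ} (hp : 0 < p) {ε : ℝ}
    (hA : (1 - ε) * S.card ≤ ‖∑ s ∈ S, e s‖) :
    ∑ s ∈ S.filter (fun s => p * s ∈ S), ‖e (p * s) - e s‖ ^ 2 ≤ 8 * ε * S.card := by
  classical
  -- a unimodular number in the direction of the sum
  obtain ⟨c, hc, hcs⟩ : ∃ c : ℂ, ‖c‖ = 1 ∧ ((starRingEnd ℂ) c * ∑ s ∈ S, e s).re = ‖∑ s ∈ S, e s‖ := by
    set z := ∑ s ∈ S, e s with hz
    by_cases h0 : z = 0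
    · exact ⟨1, norm_one, by rw [h0]; simp⟩
    · have hz0 : ‖z‖ ≠ 0 := norm_ne_zero_iff.2 h0
      refine ⟨z / ‖z‖, ?_, ?_⟩
      · rw [norm_div, Complex.norm_real, norm_norm, div_self hz0]
      · rw [map_div₀, Complex.conj_ofReal, div_mul_eq_mul_div, Complex.conj_mul']
        rw [show ((‖z‖ : ℂ) ^ 2 / (‖z‖ : ℂ)) = (‖z‖ : ℂ) by
          field_simp]
        exact Complex.ofReal_re _
  have h1 : ∀ s, ‖e s - c‖ ^ 2 = 2 - 2 * ((starRingEnd ℂ) c * e s).re := by
    intro s
    have a1 : ‖e s‖ ^ 2 = 1 := by rw [he]; norm_num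
    have a2 : ‖c‖ ^ 2 = 1 := by rw [hc]; norm_num
    rw [← Complex.normSq_eq_norm_sq, Complex.normSq_apply] at a1 a2 ⊢
    simp only [Complex.sub_re, Complex.sub_im, Complex.mul_re, Complex.conj_re, Complex.conj_im]
    nlinarith
  have h2 : ∑ s ∈ S, ‖e s - c‖ ^ 2 ≤ 2 * ε * S.card := by
    have : ∑ s ∈ S, ‖e s - c‖ ^ 2 = 2 * S.card - 2 * ‖∑ s ∈ S, e s‖ := by
      rw [← hcs, Finset.mul_sum, Complex.re_sum, Finset.mul_sum]
      simp_rw [h1]
      rw [Finset.sum_sub_distrib, Finset.sum_const, nsmul_eq_mul]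
      ring
    rw [this]
    linarith
  have h3 : ∀ s, ‖e (p * s) - e s‖ ^ 2 ≤ 2 * ‖e (p * s) - c‖ ^ 2 + 2 * ‖e s - c‖ ^ 2 := by
    intro s
    have h4 : ‖e (p * s) - e s‖ ≤ ‖e (p * s) - c‖ + ‖e s - c‖ := by
      have := norm_sub_le (e (p * s) - c) (e s - c)
      rwa [sub_sub_sub_cancel_right] at this
    have h5 := norm_nonneg (e (p * s) - e s)
    nlinarith [sq_nonneg (‖e (p * s) - c‖ - ‖e s - c‖)]
  have h6 : ∑ s ∈ S.filter (fun s => p * s ∈ S), ‖e s - c‖ ^ 2 ≤ ∑ s ∈ S, ‖e s - c‖ ^ 2 :=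
    Finset.sum_le_sum_of_subset_of_nonneg (Finset.filter_subset _ _) fun _ _ _ => sq_nonneg _
  have h7 : ∑ s ∈ S.filter (fun s => p * s ∈ S), ‖e (p * s) - c‖ ^ 2 ≤ ∑ s ∈ S, ‖e s - c‖ ^ 2 := by
    have hinj : Set.InjOn (fun s => p * s) (S.filter (fun s => p * s ∈ S) : Finset ℕ) := by
      intro a _ b _ hab
      exact Nat.eq_of_mul_eq_mul_left hp hab
    rw [← Finset.sum_image (f := fun s => ‖e s - c‖ ^ 2) hinj]
    refine Finset.sum_le_sum_of_subset_of_nonneg ?_ fun _ _ _ => sq_nonneg _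
    intro s hs
    obtain ⟨t, ht, rfl⟩ := Finset.mem_image.1 hs
    exact (Finset.mem_filter.1 ht).2
  calc ∑ s ∈ S.filter (fun s => p * s ∈ S), ‖e (p * s) - e s‖ ^ 2
      ≤ ∑ s ∈ S.filter (fun s => p * s ∈ S), (2 * ‖e (p * s) - c‖ ^ 2 + 2 * ‖e s - c‖ ^ 2) :=
        Finset.sum_le_sum fun s _ => h3 s
    _ = 2 * ∑ s ∈ S.filter (fun s => p * s ∈ S), ‖e (p * s) - c‖ ^ 2 +
        2 * ∑ s ∈ S.filter (fun s => p * s ∈ S), ‖e s - c‖ ^ 2 := by
        rw [Finset.sum_add_distrib, Finset.mul_sum, Finset.mul_sum]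
    _ ≤ _ := by linarith

/-- Many `s` in `S` with `e (p s)` near `e s`. -/
lemma core2 {e : ℕ → ℂ} (he : ∀ s, ‖e s‖ = 1) (S : Finset ℕ) {p : ℕ} (hp : 0 < p) {θ κ : ℝ}
    (hκ : 0 < κ) (hS : θ * S.card ≤ (S.filter (fun s => p * s ∈ S)).card)
    (hA : (1 - κ * θ / 16) * S.card ≤ ‖∑ s ∈ S, e s‖) :
    θ / 2 * S.card ≤ (S.filter (fun s => ‖e (p * s) - e s‖ ^ 2 < κ)).card := by
  classical
  have h1 := core he S hp hA
  set S' := S.filter (fun s => p * s ∈ S) with hS'
  have h2 : κ * (S'.filter (fun s => ¬ ‖e (p * s) - e s‖ ^ 2 < κ)).card ≤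
      ∑ s ∈ S', ‖e (p * s) - e s‖ ^ 2 := by
    calc κ * (S'.filter (fun s => ¬ ‖e (p * s) - e s‖ ^ 2 < κ)).card
        = ∑ s ∈ S'.filter (fun s => ¬ ‖e (p * s) - e s‖ ^ 2 < κ), κ := by
          rw [Finset.sum_const, nsmul_eq_mul, mul_comm]
      _ ≤ ∑ s ∈ S'.filter (fun s => ¬ ‖e (p * s) - e s‖ ^ 2 < κ), ‖e (p * s) - e s‖ ^ 2 := by
          refine Finset.sum_le_sum fun s hs => ?_
          exact not_lt.1 (Finset.mem_filter.1 hs).2
      _ ≤ _ := Finset.sum_le_sum_of_subset_of_nonneg (Finset.filter_subset _ _) fun _ _ _ => sq_nonneg _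
  have h3 : ((S'.filter (fun s => ¬ ‖e (p * s) - e s‖ ^ 2 < κ)).card : ℝ) ≤ θ / 2 * S.card := by
    have : κ * (S'.filter (fun s => ¬ ‖e (p * s) - e s‖ ^ 2 < κ)).card ≤ κ * (θ / 2 * S.card) := by
      refine (h2.trans h1).trans (le_of_eq ?_)
      ring
    exact le_of_mul_le_mul_left this hκ
  have h4 := Finset.card_filter_add_card_filter_not (s := S') (fun s => ‖e (p * s) - e s‖ ^ 2 < κ)
  have h5 : ((S'.filter (fun s => ‖e (p * s) - e s‖ ^ 2 < κ)).card : ℝ) ≤
      (S.filter (fun s => ‖e (p * s) - e s‖ ^ 2 < κ)).card := by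
    exact_mod_cast Finset.card_le_card (Finset.filter_subset_filter _ (Finset.filter_subset _ _))
  have h6 : ((S'.filter (fun s => ‖e (p * s) - e s‖ ^ 2 < κ)).card : ℝ) +
      (S'.filter (fun s => ¬ ‖e (p * s) - e s‖ ^ 2 < κ)).card = S'.card := by exact_mod_cast h4
  linarith

/-- the function whose smallness is studied -/
noncomputable def psi (n : ℤ) (p : ℕ) (t : UnitAddCircle) : ℝ :=
  ‖(fourier n (p • t) : ℂ) - fourier n t‖ ^ 2

lemma psi_cont (n : ℤ) (p : ℕ) : Continuous (psi n p) := by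
  unfold psi
  have h1 : Continuous fun t : UnitAddCircle => (fourier n (p • t) : ℂ) :=
    (fourier n).continuous.comp (continuous_nsmul p)
  have h2 : Continuous fun t : UnitAddCircle => (fourier n t : ℂ) := (fourier n).continuous
  exact (h1.sub h2).norm.pow 2

lemma psi_zero {n : ℤ} {p : ℕ} {t : UnitAddCircle} (h : psi n p t = 0) :
    (n * ((p : ℤ) - 1)) • t = 0 := by
  unfold psi at h
  have h1 : (fourier n (p • t) : ℂ) = fourier n t := by
    rw [sq_eq_zero_iff, norm_eq_zero, sub_eq_zero] at h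
    exact h
  rw [fourier_apply, fourier_apply] at h1
  have h2 : n • (p • t) = n • t :=
    AddCircle.injective_toCircle one_ne_zero (Subtype.ext h1)
  rw [mul_smul, sub_smul, natCast_zsmul, one_smul, smul_sub, h2, sub_self]

lemma psi_null (μ : Measure UnitAddCircle) [IsProbabilityMeasure μ] (hna : ∀ x, μ {x} = 0)
    {n : ℤ} (hn : n ≠ 0) {p : ℕ} (hp : 2 ≤ p) :
    (μ.prod μ) {z : UnitAddCircle × UnitAddCircle | psi n p (z.1 - z.2) = 0} = 0 := by
  have hm : MeasurableSet {z : UnitAddCircle × UnitAddCircle | psi n p (z.1 - z.2) = 0} :=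
    (((psi_cont n p).comp (continuous_fst.sub continuous_snd)).measurable) (measurableSet_singleton 0)
  rw [Measure.measure_prod_null hm]
  refine Eventually.of_forall fun x => ?_
  have hne : n * ((p : ℤ) - 1) ≠ 0 := by
    refine mul_ne_zero hn ?_
    have : (2 : ℤ) ≤ p := by exact_mod_cast hp
    omega
  set m := n * ((p : ℤ) - 1) with hmdef
  have hfin0 : {t : UnitAddCircle | m • t = 0}.Finite := by
    refine (AddCircle.finite_torsion (1 : ℝ) (Int.natAbs_pos.2 hne)).subset fun t ht => ?_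
    have h1 : m • t = 0 := ht
    show m.natAbs • t = 0
    rcases Int.natAbs_eq m with h | h
    · rw [h, natCast_zsmul] at h1
      exact h1
    · rw [h, neg_smul, natCast_zsmul, neg_eq_zero] at h1
      exact h1
  have hfin : (Prod.mk x ⁻¹' {z : UnitAddCircle × UnitAddCircle | psi n p (z.1 - z.2) = 0}).Finite := by
    refine (hfin0.image fun t => x - t).subset fun y hy => ?_
    have h1 : psi n p (x - y) = 0 := hy
    exact ⟨x - y, psi_zero h1, by simp⟩
  have : NullSingletonClass μ := ⟨hna⟩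
  exact hfin.measure_zero μ

lemma psi_small (μ : Measure UnitAddCircle) [IsProbabilityMeasure μ] (hna : ∀ x, μ {x} = 0)
    {n : ℤ} (hn : n ≠ 0) {p : ℕ} (hp : 2 ≤ p) {δ : ℝ} (hδ : 0 < δ) :
    ∃ κ : ℝ, 0 < κ ∧ κ ≤ 1 ∧
      (μ.prod μ).real {z : UnitAddCircle × UnitAddCircle | psi n p (z.1 - z.2) < κ} < δ := by
  set D : ℕ → Set (UnitAddCircle × UnitAddCircle) := fun k =>
    {z : UnitAddCircle × UnitAddCircle | psi n p (z.1 - z.2) < 1 / ((k : ℝ) + 1)} with hD
  have hcont : Continuous fun z : UnitAddCircle × UnitAddCircle => psi n p (z.1 - z.2) :=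
    (psi_cont n p).comp (continuous_fst.sub continuous_snd)
  have hmeas : ∀ k, NullMeasurableSet (D k) (μ.prod μ) := fun k =>
    (isOpen_lt hcont continuous_const).measurableSet.nullMeasurableSet
  have hanti : Antitone D := by
    intro a b hab z hz
    have h1 : psi n p (z.1 - z.2) < 1 / ((b : ℝ) + 1) := hz
    refine lt_of_lt_of_le h1 ?_
    exact one_div_le_one_div_of_le (by positivity) (by
      have : (a : ℝ) ≤ b := by exact_mod_cast hab
      linarith)
  have hlim := tendsto_measure_iInter_atTop hmeas hanti ⟨0, measure_ne_top _ _⟩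
  have hint : ⋂ k, D k = {z : UnitAddCircle × UnitAddCircle | psi n p (z.1 - z.2) = 0} := by
    ext z
    rw [mem_iInter]
    constructor
    · intro h
      show psi n p (z.1 - z.2) = 0
      have h0 : 0 ≤ psi n p (z.1 - z.2) := sq_nonneg _
      refine le_antisymm ?_ h0
      refine ge_of_tendsto tendsto_one_div_add_atTop_nhds_zero_nat (Eventually.of_forall fun k => ?_)
      exact (show psi n p (z.1 - z.2) < 1 / ((k : ℝ) + 1) from h k).le
    · intro h k
      show psi n p (z.1 - z.2) < 1 / ((k : ℝ) + 1)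
      rw [show psi n p (z.1 - z.2) = 0 from h]
      positivity
  rw [hint, psi_null μ hna hn hp] at hlim
  have hlim2 : Tendsto (fun k => ((μ.prod μ) (D k)).toReal) atTop (𝓝 0) := by
    have := (ENNReal.tendsto_toReal ENNReal.zero_ne_top).comp hlim
    rw [ENNReal.toReal_zero] at this
    exact this
  obtain ⟨k, hk⟩ := (hlim2.eventually (gt_mem_nhds hδ)).exists
  refine ⟨1 / ((k : ℝ) + 1), by positivity, ?_, hk⟩
  rw [div_le_one (by positivity)]
  have : (0 : ℝ) ≤ k := by positivity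
  linarith

/-- the set where the average is nearly unimodular is small -/
lemma bad_small (μ : Measure UnitAddCircle) [IsProbabilityMeasure μ] (n : ℤ) {p : ℕ} (hp : 2 ≤ p)
    {θ κ : ℝ} (hθ : 0 < θ) (hκ : 0 < κ) (S : Finset ℕ) (hne : S.Nonempty)
    (hinv : ∀ s ∈ S, MeasurePreserving (fun x : UnitAddCircle => s • x) μ μ)
    (hS : θ * S.card ≤ (S.filter (fun s => p * s ∈ S)).card) :
    (μ.prod μ).real {z : UnitAddCircle × UnitAddCircle |
      (1 - κ * θ / 16) * S.card ≤ ‖∑ s ∈ S, (fourier n (s • (z.1 - z.2)) : ℂ)‖} ≤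
    2 / θ * (μ.prod μ).real {z : UnitAddCircle × UnitAddCircle | psi n p (z.1 - z.2) < κ} := by
  classical
  set B := {z : UnitAddCircle × UnitAddCircle |
      (1 - κ * θ / 16) * S.card ≤ ‖∑ s ∈ S, (fourier n (s • (z.1 - z.2)) : ℂ)‖} with hB
  set D := {z : UnitAddCircle × UnitAddCircle | psi n p (z.1 - z.2) < κ} with hD
  have hcont : Continuous fun z : UnitAddCircle × UnitAddCircle => psi n p (z.1 - z.2) :=
    (psi_cont n p).comp (continuous_fst.sub continuous_snd)
  have hDm : MeasurableSet D := (isOpen_lt hcont continuous_const).measurableSet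
  have hsum : Continuous fun z : UnitAddCircle × UnitAddCircle =>
      ‖∑ s ∈ S, (fourier n (s • (z.1 - z.2)) : ℂ)‖ := by
    refine Continuous.norm (continuous_finsetSum _ fun s _ => ?_)
    exact (fourier n).continuous.comp ((continuous_nsmul s).comp (continuous_fst.sub continuous_snd))
  have hBm : MeasurableSet B := (isClosed_le continuous_const hsum).measurableSet
  have hcard : (0 : ℝ) < S.card := by exact_mod_cast hne.card_pos
  -- the preimages
  set Ds : ℕ → Set (UnitAddCircle × UnitAddCircle) := fun s =>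
    (fun z : UnitAddCircle × UnitAddCircle => (s • z.1, s • z.2)) ⁻¹' D with hDs
  have hpres : ∀ s ∈ S, (μ.prod μ).real (Ds s) = (μ.prod μ).real D := by
    intro s hs
    have h1 := (hinv s hs).prod (hinv s hs)
    exact congrArg ENNReal.toReal (h1.measure_preimage hDm.nullMeasurableSet)
  have hDsm : ∀ s, MeasurableSet (Ds s) := by
    intro s
    refine hDm.preimage ?_
    exact (((continuous_nsmul s).comp continuous_fst).prodMk
      ((continuous_nsmul s).comp continuous_snd)).measurable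
  -- pointwise
  have hpt : ∀ z, B.indicator (fun _ => θ / 2 * (S.card : ℝ)) z ≤
      ∑ s ∈ S, (Ds s).indicator (fun _ => (1 : ℝ)) z := by
    intro z
    by_cases hz : z ∈ B
    · rw [indicator_of_mem hz]
      set e : ℕ → ℂ := fun s => (fourier n (s • (z.1 - z.2)) : ℂ) with he
      have h1 := core2 (e := e) (fun s => norm_fourier _ _) S (by omega : 0 < p) hκ hS hz
      refine h1.trans (le_of_eq ?_)
      rw [Finset.card_filter]
      push_cast
      refine Finset.sum_congr rfl fun s _ => ?_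
      have h2 : z ∈ Ds s ↔ ‖e (p * s) - e s‖ ^ 2 < κ := by
        show psi n p (s • z.1 - s • z.2) < κ ↔ _
        rw [← smul_sub, psi, smul_smul]
      by_cases h3 : ‖e (p * s) - e s‖ ^ 2 < κ
      · rw [if_pos h3, indicator_of_mem (h2.2 h3)]
      · rw [if_neg h3, indicator_of_notMem (fun h => h3 (h2.1 h))]
    · rw [indicator_of_notMem hz]
      exact Finset.sum_nonneg fun s _ => indicator_nonneg (fun _ _ => zero_le_one) _
  have hi : ∀ s ∈ S, Integrable ((Ds s).indicator fun _ => (1 : ℝ)) (μ.prod μ) := fun s _ =>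
    (integrable_const _).indicator (hDsm s)
  have hint := integral_mono (μ := μ.prod μ) ((integrable_const (θ / 2 * (S.card : ℝ))).indicator hBm)
    (integrable_finsetSum _ hi) hpt
  rw [integral_indicator hBm, setIntegral_const, integral_finsetSum _ hi] at hint
  have h5 : ∀ s ∈ S, ∫ z, (Ds s).indicator (fun _ => (1 : ℝ)) z ∂(μ.prod μ) = (μ.prod μ).real D := by
    intro s hs
    rw [integral_indicator (hDsm s), setIntegral_const, hpres s hs, smul_eq_mul, mul_one]
  rw [Finset.sum_congr rfl h5, Finset.sum_const, nsmul_eq_mul, smul_eq_mul] at hint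
  have h6 : (μ.prod μ).real B * (θ / 2) ≤ (μ.prod μ).real D := by
    have : ((μ.prod μ).real B * (θ / 2)) * S.card ≤ (μ.prod μ).real D * S.card := by linarith
    exact le_of_mul_le_mul_right this hcard
  rw [div_mul_eq_mul_div, le_div_iff₀ hθ]
  linarith

/-- the expansion of the power of the sum -/
lemma pow_expand (n : ℤ) (S : Finset ℕ) (r : ℕ) (t : UnitAddCircle) :
    (∑ s ∈ S, (fourier n (s • t) : ℂ)) ^ r =
      ∑ f ∈ Fintype.piFinset (fun _ : Fin r => S), (fourier (n * ((∑ i, f i : ℕ) : ℤ)) t : ℂ) := by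
  classical
  have h := Finset.prod_univ_sum (fun _ : Fin r => S) (fun _ s => (fourier n (s • t) : ℂ))
  rw [Finset.prod_const, Finset.card_univ, Fintype.card_fin] at h
  rw [h]
  refine Finset.sum_congr rfl fun f _ => ?_
  simp_rw [fourier_nsmul]
  have h2 : ∀ F : Finset (Fin r), ∏ i ∈ F, (fourier (n * (f i : ℤ)) t : ℂ) =
      fourier (n * ((∑ i ∈ F, f i : ℕ) : ℤ)) t := by
    intro F
    induction F using Finset.induction_on with
    | empty => simp
    | insert i F hi ih =>
      rw [Finset.prod_insert hi, ih, Finset.sum_insert hi]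
      rw [fourier_apply, fourier_apply, fourier_apply, ← Circle.coe_mul, ← AddCircle.toCircle_add,
        ← add_smul]
      push_cast
      rw [mul_add]
  exact h2 Finset.univ

lemma sq_coeff (μ : Measure UnitAddCircle) [IsProbabilityMeasure μ] (m : ℤ) :
    ∫ z : UnitAddCircle × UnitAddCircle, (fourier m (z.1 - z.2) : ℂ) ∂(μ.prod μ) =
      ((‖∫ x, (fourier m x : ℂ) ∂μ‖ ^ 2 : ℝ) : ℂ) := by
  simp_rw [fourier_sub_pt]
  rw [integral_prod_mul (fun x : UnitAddCircle => (fourier m x : ℂ)) (fun y : UnitAddCircle => (fourier (-m) y : ℂ))]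
  have h1 : ∫ y, (fourier (-m) y : ℂ) ∂μ = (starRingEnd ℂ) (∫ y, (fourier m y : ℂ) ∂μ) := by
    rw [← integral_conj]
    refine integral_congr_ae (Eventually.of_forall fun y => ?_)
    exact fourier_neg
  rw [h1, Complex.mul_conj, Complex.normSq_eq_norm_sq]

/-- the quantitative form -/
theorem main_ineq (μ : Measure UnitAddCircle) [IsProbabilityMeasure μ] (n : ℤ) {p : ℕ} (hp : 2 ≤ p)
    {θ κ : ℝ} (hθ : 0 < θ) (hκ : 0 < κ) (hκθ : κ * θ / 16 ≤ 1) (S : Finset ℕ) (hne : S.Nonempty)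
    (hinv : ∀ s ∈ S, MeasurePreserving (fun x : UnitAddCircle => s • x) μ μ)
    (hS : θ * S.card ≤ (S.filter (fun s => p * s ∈ S)).card) (r : ℕ) :
    ∑ f ∈ Fintype.piFinset (fun _ : Fin r => S),
        ‖∫ x, (fourier (n * ((∑ i, f i : ℕ) : ℤ)) x : ℂ) ∂μ‖ ^ 2 ≤
      ((1 - κ * θ / 16) ^ r +
        2 / θ * (μ.prod μ).real {z : UnitAddCircle × UnitAddCircle | psi n p (z.1 - z.2) < κ}) *
          (S.card : ℝ) ^ r := by
  classical
  set B := {z : UnitAddCircle × UnitAddCircle |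
      (1 - κ * θ / 16) * S.card ≤ ‖∑ s ∈ S, (fourier n (s • (z.1 - z.2)) : ℂ)‖} with hB
  have hbad := bad_small μ n hp hθ hκ S hne hinv hS
  rw [← hB] at hbad
  have hsumc : Continuous fun z : UnitAddCircle × UnitAddCircle =>
      ∑ s ∈ S, (fourier n (s • (z.1 - z.2)) : ℂ) := by
    refine continuous_finsetSum _ fun s _ => ?_
    exact (fourier n).continuous.comp ((continuous_nsmul s).comp (continuous_fst.sub continuous_snd))
  have hBm : MeasurableSet B := (isClosed_le continuous_const hsumc.norm).measurableSet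
  have hS0 : (0 : ℝ) ≤ S.card := by positivity
  have hle : ∀ z : UnitAddCircle × UnitAddCircle,
      ‖∑ s ∈ S, (fourier n (s • (z.1 - z.2)) : ℂ)‖ ≤ S.card := by
    intro z
    calc ‖∑ s ∈ S, (fourier n (s • (z.1 - z.2)) : ℂ)‖ ≤ ∑ s ∈ S, ‖(fourier n (s • (z.1 - z.2)) : ℂ)‖ :=
          norm_sum_le _ _
      _ = S.card := by simp_rw [norm_fourier]; simp
  -- the identity
  have hid : ((∑ f ∈ Fintype.piFinset (fun _ : Fin r => S),
        ‖∫ x, (fourier (n * ((∑ i, f i : ℕ) : ℤ)) x : ℂ) ∂μ‖ ^ 2 : ℝ) : ℂ) =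
      ∫ z : UnitAddCircle × UnitAddCircle, (∑ s ∈ S, (fourier n (s • (z.1 - z.2)) : ℂ)) ^ r ∂(μ.prod μ) := by
    simp_rw [pow_expand]
    rw [integral_finsetSum]
    · push_cast
      refine Finset.sum_congr rfl fun f _ => ?_
      rw [sq_coeff]
      push_cast
      rfl
    · intro f _
      refine Integrable.of_bound (C := 1) ?_ (Eventually.of_forall fun z => (norm_fourier _ _).le)
      exact ((fourier _).continuous.comp (continuous_fst.sub continuous_snd)).aestronglyMeasurable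
  have hnn : 0 ≤ ∑ f ∈ Fintype.piFinset (fun _ : Fin r => S),
        ‖∫ x, (fourier (n * ((∑ i, f i : ℕ) : ℤ)) x : ℂ) ∂μ‖ ^ 2 :=
    Finset.sum_nonneg fun _ _ => sq_nonneg _
  have h1 : ∑ f ∈ Fintype.piFinset (fun _ : Fin r => S),
        ‖∫ x, (fourier (n * ((∑ i, f i : ℕ) : ℤ)) x : ℂ) ∂μ‖ ^ 2 =
      ‖∫ z : UnitAddCircle × UnitAddCircle, (∑ s ∈ S, (fourier n (s • (z.1 - z.2)) : ℂ)) ^ r ∂(μ.prod μ)‖ := by
    rw [← hid, Complex.norm_real, Real.norm_of_nonneg hnn]
  rw [h1]
  -- the pointwise bound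
  have hpt : ∀ z : UnitAddCircle × UnitAddCircle,
      ‖(∑ s ∈ S, (fourier n (s • (z.1 - z.2)) : ℂ)) ^ r‖ ≤
        (1 - κ * θ / 16) ^ r * (S.card : ℝ) ^ r + B.indicator (fun _ => (S.card : ℝ) ^ r) z := by
    intro z
    rw [norm_pow]
    by_cases hz : z ∈ B
    · rw [indicator_of_mem hz]
      have h2 : ‖∑ s ∈ S, (fourier n (s • (z.1 - z.2)) : ℂ)‖ ^ r ≤ (S.card : ℝ) ^ r :=
        pow_le_pow_left₀ (norm_nonneg _) (hle z) r
      have h3 : 0 ≤ (1 - κ * θ / 16) ^ r * (S.card : ℝ) ^ r :=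
        mul_nonneg (pow_nonneg (by linarith) _) (by positivity)
      linarith
    · rw [indicator_of_notMem hz, add_zero, ← mul_pow]
      have h2 : ‖∑ s ∈ S, (fourier n (s • (z.1 - z.2)) : ℂ)‖ < (1 - κ * θ / 16) * S.card := not_le.1 hz
      exact pow_le_pow_left₀ (norm_nonneg _) h2.le r
  have hI1 : Integrable (B.indicator fun _ => (S.card : ℝ) ^ r) (μ.prod μ) :=
    (integrable_const _).indicator hBm
  calc ‖∫ z : UnitAddCircle × UnitAddCircle, (∑ s ∈ S, (fourier n (s • (z.1 - z.2)) : ℂ)) ^ r ∂(μ.prod μ)‖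
      ≤ ∫ z : UnitAddCircle × UnitAddCircle, ‖(∑ s ∈ S, (fourier n (s • (z.1 - z.2)) : ℂ)) ^ r‖ ∂(μ.prod μ) :=
        norm_integral_le_integral_norm _
    _ ≤ ∫ z : UnitAddCircle × UnitAddCircle, ((1 - κ * θ / 16) ^ r * (S.card : ℝ) ^ r +
          B.indicator (fun _ => (S.card : ℝ) ^ r) z) ∂(μ.prod μ) :=
        integral_mono_of_nonneg (Eventually.of_forall fun z => norm_nonneg _)
          ((integrable_const _).add hI1) (Eventually.of_forall hpt)
    _ = (1 - κ * θ / 16) ^ r * (S.card : ℝ) ^ r + (μ.prod μ).real B * (S.card : ℝ) ^ r := by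
        rw [integral_add (integrable_const _) hI1, integral_indicator hBm, setIntegral_const,
          integral_const, probReal_univ, one_smul, smul_eq_mul]
    _ ≤ _ := by
        have h4 : (μ.prod μ).real B * (S.card : ℝ) ^ r ≤ (2 / θ * (μ.prod μ).real
            {z : UnitAddCircle × UnitAddCircle | psi n p (z.1 - z.2) < κ}) * (S.card : ℝ) ^ r :=
          mul_le_mul_of_nonneg_right hbad (by positivity)
        rw [add_mul]
        linarith

lemma vol_fourier {n : ℤ} (hn : n ≠ 0) : ∫ x, (fourier n x : ℂ) ∂(volume : Measure UnitAddCircle) = 0 := by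
  refine Pool.Agent.R202.coeff_zero (θ := Real.sqrt 2) irrational_sqrt_two ?_ hn
  exact (measurePreserving_add_right volume _).map_eq

/-- Part one for one coefficient. -/
theorem decay (μ : Measure UnitAddCircle) [IsProbabilityMeasure μ] (hna : ∀ x, μ {x} = 0)
    {p : ℕ} (hp : 2 ≤ p) {n : ℤ} (hn : n ≠ 0) {θ ε : ℝ} (hθ : 0 < θ) (hε : 0 < ε) :
    ∃ r₀ : ℕ, ∀ r, r₀ ≤ r → ∀ S : Finset ℕ, S.Nonempty →
      (∀ s ∈ S, MeasurePreserving (fun x : UnitAddCircle => s • x) μ μ) →
      θ * S.card ≤ (S.filter (fun s => p * s ∈ S)).card →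
      ∑ f ∈ Fintype.piFinset (fun _ : Fin r => S),
        ‖∫ x, (fourier (n * ((∑ i, f i : ℕ) : ℤ)) x : ℂ) ∂μ‖ ^ 2 ≤ ε * (S.card : ℝ) ^ r := by
  -- we may take `θ ≤ 1`
  set θ' := min θ 1 with hθ'
  have hθ'0 : 0 < θ' := lt_min hθ one_pos
  have hθ'1 : θ' ≤ 1 := min_le_right _ _
  obtain ⟨κ, hκ, hκ1, hD⟩ := psi_small μ hna hn hp (δ := ε * θ' / 4) (by positivity)
  have hq0 : 0 ≤ 1 - κ * θ' / 16 := by nlinarith
  have hq1 : 1 - κ * θ' / 16 < 1 := by
    have : 0 < κ * θ' / 16 := by positivity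
    linarith
  obtain ⟨r₀, hr₀⟩ := ((tendsto_pow_atTop_nhds_zero_of_lt_one hq0 hq1).eventually
    (gt_mem_nhds (half_pos hε))).exists_forall_of_atTop
  refine ⟨r₀, fun r hr S hne hinv hS => ?_⟩
  have hS' : θ' * S.card ≤ (S.filter (fun s => p * s ∈ S)).card := by
    refine le_trans ?_ hS
    exact mul_le_mul_of_nonneg_right (min_le_left _ _) (by positivity)
  have h := main_ineq μ n hp hθ'0 hκ (by linarith) S hne hinv hS' r
  refine h.trans (mul_le_mul_of_nonneg_right ?_ (by positivity))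
  have h1 := hr₀ r hr
  have h2 : 2 / θ' * (μ.prod μ).real {z : UnitAddCircle × UnitAddCircle | psi n p (z.1 - z.2) < κ} ≤
      2 / θ' * (ε * θ' / 4) := mul_le_mul_of_nonneg_left hD.le (by positivity)
  have h3 : 2 / θ' * (ε * θ' / 4) = ε / 2 := by
    field_simp
    ring
  linarith

/-- Part two. -/
theorem rarely (μ : Measure UnitAddCircle) [IsProbabilityMeasure μ] (hna : ∀ x, μ {x} = 0)
    (hμ : μ ≠ volume) {p : ℕ} (hp : 2 ≤ p) {θ ε : ℝ} (hθ : 0 < θ) (hε : 0 < ε) :
    ∃ r₀ : ℕ, ∀ r, r₀ ≤ r → ∀ S : Finset ℕ, S.Nonempty →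
      (∀ s ∈ S, MeasurePreserving (fun x : UnitAddCircle => s • x) μ μ) →
      θ * S.card ≤ (S.filter (fun s => p * s ∈ S)).card →
      ({f : Fin r → ℕ | (∀ i, f i ∈ S) ∧
        MeasurePreserving (fun x : UnitAddCircle => (∑ i, f i) • x) μ μ}.ncard : ℝ) ≤
          ε * (S.card : ℝ) ^ r := by
  classical
  -- a nonvanishing coefficient
  obtain ⟨n, hn, hc⟩ : ∃ n : ℤ, n ≠ 0 ∧ ∫ x, (fourier n x : ℂ) ∂μ ≠ 0 := by
    by_contra hcon
    push Not at hcon
    refine hμ (Pool.Agent.R202.ext_fourier fun n => ?_)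
    by_cases hn : n = 0
    · subst hn
      have h0 : (volume : Measure UnitAddCircle) univ = 1 := UnitAddCircle.measure_univ
      simp [measureReal_def, h0]
    · rw [vol_fourier hn, hcon n hn]
  set a : ℝ := ‖∫ x, (fourier n x : ℂ) ∂μ‖ ^ 2 with ha
  have ha0 : 0 < a := by positivity
  obtain ⟨r₀, hr₀⟩ := decay μ hna hp hn hθ (mul_pos hε ha0)
  refine ⟨r₀, fun r hr S hne hinv hS => ?_⟩
  have h := hr₀ r hr S hne hinv hS
  set G : Finset (Fin r → ℕ) := (Fintype.piFinset (fun _ : Fin r => S)).filter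
    fun f => MeasurePreserving (fun x : UnitAddCircle => (∑ i, f i) • x) μ μ with hG
  have hGe : {f : Fin r → ℕ | (∀ i, f i ∈ S) ∧
        MeasurePreserving (fun x : UnitAddCircle => (∑ i, f i) • x) μ μ} = (G : Set (Fin r → ℕ)) := by
    ext f
    simp [hG, Fintype.mem_piFinset]
  rw [hGe, Set.ncard_coe_finset]
  have h1 : (G.card : ℝ) * a ≤ ε * a * (S.card : ℝ) ^ r := by
    refine le_trans ?_ h
    calc (G.card : ℝ) * a = ∑ f ∈ G, a := by rw [Finset.sum_const, nsmul_eq_mul]
      _ = ∑ f ∈ G, ‖∫ x, (fourier (n * ((∑ i, f i : ℕ) : ℤ)) x : ℂ) ∂μ‖ ^ 2 := by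
          refine Finset.sum_congr rfl fun f hf => ?_
          have hf2 := (Finset.mem_filter.1 hf).2
          have h2 : ∫ x, (fourier (n * ((∑ i, f i : ℕ) : ℤ)) x : ℂ) ∂μ = ∫ x, (fourier n x : ℂ) ∂μ := by
            simp_rw [← fourier_nsmul]
            have h3 := integral_map (μ := μ) (φ := fun x : UnitAddCircle => (∑ i, f i) • x)
              hf2.measurable.aemeasurable (f := fun x => (fourier n x : ℂ))
              (fourier n).continuous.aestronglyMeasurable
            rw [hf2.map_eq] at h3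
            exact h3.symm
          rw [ha, h2]
      _ ≤ _ := Finset.sum_le_sum_of_subset_of_nonneg (Finset.filter_subset _ _) fun _ _ _ => sq_nonneg _
  have h2 : (G.card : ℝ) * a ≤ (ε * (S.card : ℝ) ^ r) * a := by linarith
  exact le_of_mul_le_mul_right h2 ha0

lemma pq_inj {p q : ℕ} (hp : 2 ≤ p) (hq : 2 ≤ q)
    (hirr : Irrational (Real.log (p : ℝ) / Real.log (q : ℝ))) {i j k l : ℕ}
    (h : p ^ i * q ^ j = p ^ k * q ^ l) : i = k ∧ j = l := by
  have hp0 : (0 : ℝ) < p := by positivity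
  have hq0 : (0 : ℝ) < q := by positivity
  have hlq : 0 < Real.log (q : ℝ) := Real.log_pos (by exact_mod_cast (by omega : 1 < q))
  have h1 : (p : ℝ) ^ i * (q : ℝ) ^ j = (p : ℝ) ^ k * (q : ℝ) ^ l := by exact_mod_cast h
  have h2 := congrArg Real.log h1
  rw [Real.log_mul (by positivity) (by positivity), Real.log_mul (by positivity) (by positivity),
    Real.log_pow, Real.log_pow, Real.log_pow, Real.log_pow] at h2
  have h3 : ((i : ℝ) - k) * (Real.log (p : ℝ) / Real.log (q : ℝ)) = (l : ℝ) - j := by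
    rw [mul_div_assoc', div_eq_iff hlq.ne']
    linarith
  by_cases hik : i = k
  · subst hik
    refine ⟨rfl, ?_⟩
    rw [sub_self, zero_mul] at h3
    have h4 : (j : ℝ) = l := by linarith
    exact_mod_cast h4
  · exfalso
    have h5 : ((i : ℝ) - k) ≠ 0 := by
      rw [sub_ne_zero]
      exact_mod_cast hik
    refine hirr ⟨((l : ℚ) - j) / ((i : ℚ) - k), ?_⟩
    push_cast
    rw [div_eq_iff h5, ← h3]
    ring

/-- Part three. -/
theorem rarely_pq (μ : Measure UnitAddCircle) [IsProbabilityMeasure μ] (hna : ∀ x, μ {x} = 0)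
    (hμ : μ ≠ volume) {p q : ℕ} (hp : 2 ≤ p) (hq : 2 ≤ q)
    (hirr : Irrational (Real.log (p : ℝ) / Real.log (q : ℝ)))
    (hip : MeasurePreserving (fun x : UnitAddCircle => p • x) μ μ)
    (hiq : MeasurePreserving (fun x : UnitAddCircle => q • x) μ μ) {ε : ℝ} (hε : 0 < ε) :
    ∃ r₀ : ℕ, ∀ r, r₀ ≤ r → ∀ M N : ℕ, 2 ≤ M → 1 ≤ N →
      ({f : Fin r → ℕ × ℕ | (∀ i, (f i).1 < M ∧ (f i).2 < N) ∧
        MeasurePreserving (fun x : UnitAddCircle => (∑ i, p ^ (f i).1 * q ^ (f i).2) • x) μ μ}.ncard : ℝ) ≤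
          ε * ((M : ℝ) * N) ^ r := by
  classical
  obtain ⟨r₀, hr₀⟩ := rarely μ hna hμ hp (θ := 1 / 2) (by norm_num) hε
  refine ⟨r₀, fun r hr M N hM hN => ?_⟩
  set g : ℕ × ℕ → ℕ := fun z => p ^ z.1 * q ^ z.2 with hg
  have hginj : Function.Injective g := by
    intro a b hab
    obtain ⟨h1, h2⟩ := pq_inj hp hq hirr hab
    exact Prod.ext h1 h2
  set S : Finset ℕ := (Finset.range M ×ˢ Finset.range N).image g with hS
  have hcard : S.card = M * N := by
    rw [hS, Finset.card_image_of_injective _ hginj, Finset.card_product, Finset.card_range,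
      Finset.card_range]
  have hne : S.Nonempty := by
    rw [← Finset.card_pos, hcard]
    positivity
  have hpowp : ∀ i : ℕ, MeasurePreserving (fun x : UnitAddCircle => (p ^ i) • x) μ μ := by
    intro i
    induction i with
    | zero =>
      simp only [pow_zero, one_smul]
      exact MeasurePreserving.id μ
    | succ i ih =>
      have h := hip.comp ih
      refine (by
        have e : (fun x : UnitAddCircle => (p ^ (i + 1)) • x) =
            (fun x : UnitAddCircle => p • x) ∘ fun x : UnitAddCircle => (p ^ i) • x := by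
          funext x
          rw [Function.comp_apply, smul_smul, pow_succ']
        rw [e]
        exact h)
  have hpowq : ∀ i : ℕ, MeasurePreserving (fun x : UnitAddCircle => (q ^ i) • x) μ μ := by
    intro i
    induction i with
    | zero =>
      simp only [pow_zero, one_smul]
      exact MeasurePreserving.id μ
    | succ i ih =>
      have h := hiq.comp ih
      refine (by
        have e : (fun x : UnitAddCircle => (q ^ (i + 1)) • x) =
            (fun x : UnitAddCircle => q • x) ∘ fun x : UnitAddCircle => (q ^ i) • x := by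
          funext x
          rw [Function.comp_apply, smul_smul, pow_succ']
        rw [e]
        exact h)
  have hinv : ∀ s ∈ S, MeasurePreserving (fun x : UnitAddCircle => s • x) μ μ := by
    intro s hs
    obtain ⟨z, _, rfl⟩ := Finset.mem_image.1 hs
    have h := (hpowp z.1).comp (hpowq z.2)
    have e : (fun x : UnitAddCircle => g z • x) =
        (fun x : UnitAddCircle => (p ^ z.1) • x) ∘ fun x : UnitAddCircle => (q ^ z.2) • x := by
      funext x
      rw [Function.comp_apply, smul_smul]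
    rw [e]
    exact h
  have hfil : (1 / 2 : ℝ) * S.card ≤ (S.filter (fun s => p * s ∈ S)).card := by
    have h1 : (Finset.range (M - 1) ×ˢ Finset.range N).image g ⊆ S.filter (fun s => p * s ∈ S) := by
      intro s hs
      obtain ⟨z, hz, rfl⟩ := Finset.mem_image.1 hs
      rw [Finset.mem_product, Finset.mem_range, Finset.mem_range] at hz
      refine Finset.mem_filter.2 ⟨Finset.mem_image_of_mem _ ?_, ?_⟩
      · rw [Finset.mem_product, Finset.mem_range, Finset.mem_range]
        exact ⟨by omega, hz.2⟩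
      · refine Finset.mem_image.2 ⟨(z.1 + 1, z.2), ?_, ?_⟩
        · rw [Finset.mem_product, Finset.mem_range, Finset.mem_range]
          exact ⟨by omega, hz.2⟩
        · show p ^ (z.1 + 1) * q ^ z.2 = p * (p ^ z.1 * q ^ z.2)
          ring
    have h2 := Finset.card_le_card h1
    rw [Finset.card_image_of_injective _ hginj, Finset.card_product, Finset.card_range,
      Finset.card_range] at h2
    have h3 : (((M - 1) * N : ℕ) : ℝ) ≤ (S.filter (fun s => p * s ∈ S)).card := by exact_mod_cast h2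
    refine le_trans ?_ h3
    rw [hcard]
    push_cast [Nat.cast_sub (by omega : 1 ≤ M)]
    have hM' : (2 : ℝ) ≤ M := by exact_mod_cast hM
    have hN' : (0 : ℝ) ≤ N := by positivity
    nlinarith
  have h := hr₀ r hr S hne hinv hfil
  rw [hcard] at h
  push_cast at h
  refine le_trans ?_ h
  have hfin : {f : Fin r → ℕ | (∀ i, f i ∈ S) ∧
        MeasurePreserving (fun x : UnitAddCircle => (∑ i, f i) • x) μ μ}.Finite := by
    refine (Fintype.piFinset (fun _ : Fin r => S)).finite_toSet.subset fun f hf => ?_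
    rw [Finset.mem_coe, Fintype.mem_piFinset]
    exact hf.1
  have hle := Set.ncard_le_ncard_of_injOn
    (s := {f : Fin r → ℕ × ℕ | (∀ i, (f i).1 < M ∧ (f i).2 < N) ∧
        MeasurePreserving (fun x : UnitAddCircle => (∑ i, p ^ (f i).1 * q ^ (f i).2) • x) μ μ})
    (t := {f : Fin r → ℕ | (∀ i, f i ∈ S) ∧
        MeasurePreserving (fun x : UnitAddCircle => (∑ i, f i) • x) μ μ})
    (fun f i => g (f i)) (fun f hf => ⟨fun i => Finset.mem_image_of_mem _ (by
      rw [Finset.mem_product, Finset.mem_range, Finset.mem_range]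
      exact hf.1 i), hf.2⟩) (fun a _ b _ hab => funext fun i => hginj (congrFun hab i)) hfin
  exact_mod_cast hle

/-- **Sums of many multipliers.** Let `μ` be an atomless probability measure on the circle and, for a natural
number `s`, let `T_s x = s x`.

Part one. For every `p ≥ 2`, every integer `n ≠ 0` and all `θ, ε > 0` there is `r₀` such that for every
`r ≥ r₀` and EVERY nonempty finite set `S` of natural numbers `s` such that `μ` is `T_s`-invariant, with
`#{s ∈ S : p s ∈ S} ≥ θ #S`, the average of `|μ^(n (s_1 + ... + s_r))| ^ 2` over all the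
`(s_1, ..., s_r) ∈ S ^ r` is at most `ε`.

Part two. If moreover `μ` is not Lebesgue measure, then for every `p ≥ 2` and all `θ, ε > 0` there is `r₀`
such that for all `r ≥ r₀` and all such `S` the measure `μ` is `T_(s_1 + ... + s_r)`-invariant for at most
`ε #S ^ r` of the `(s_1, ..., s_r) ∈ S ^ r`.

Part three. In particular, if `p, q ≥ 2` are multiplicatively independent and `μ`, not Lebesgue measure, is
`T_p`- and `T_q`-invariant, then for every `ε > 0` and all large `r`, for all `M ≥ 2` and `N ≥ 1`, at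
most a proportion `ε` of the families `(i_k, j_k)` (`k < r`) with `i_k < M`, `j_k < N` has the property that
`μ` is `T_m`-invariant for `m = p ^ i_1 q ^ j_1 + ... + p ^ i_r q ^ j_r`. -/
theorem result (μ : Measure UnitAddCircle) [IsProbabilityMeasure μ] (hna : ∀ x, μ {x} = 0) :
    (∀ (p : ℕ) (n : ℤ) (θ ε : ℝ), 2 ≤ p → n ≠ 0 → 0 < θ → 0 < ε →
      ∃ r₀ : ℕ, ∀ r, r₀ ≤ r → ∀ S : Finset ℕ, S.Nonempty →
        (∀ s ∈ S, MeasurePreserving (fun x : UnitAddCircle => s • x) μ μ) →
        θ * S.card ≤ ((S.filter (fun s => p * s ∈ S)).card : ℝ) →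
        ∑ f ∈ Fintype.piFinset (fun _ : Fin r => S),
          ‖∫ x, (fourier (n * ((∑ i, f i : ℕ) : ℤ)) x : ℂ) ∂μ‖ ^ 2 ≤ ε * (S.card : ℝ) ^ r) ∧
    (μ ≠ volume → ∀ (p : ℕ) (θ ε : ℝ), 2 ≤ p → 0 < θ → 0 < ε →
      ∃ r₀ : ℕ, ∀ r, r₀ ≤ r → ∀ S : Finset ℕ, S.Nonempty →
        (∀ s ∈ S, MeasurePreserving (fun x : UnitAddCircle => s • x) μ μ) →
        θ * S.card ≤ ((S.filter (fun s => p * s ∈ S)).card : ℝ) →
        ({f : Fin r → ℕ | (∀ i, f i ∈ S) ∧
          MeasurePreserving (fun x : UnitAddCircle => (∑ i, f i) • x) μ μ}.ncard : ℝ) ≤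
            ε * (S.card : ℝ) ^ r) ∧
    (μ ≠ volume → ∀ (p q : ℕ) (ε : ℝ), 2 ≤ p → 2 ≤ q →
      Irrational (Real.log (p : ℝ) / Real.log (q : ℝ)) →
      MeasurePreserving (fun x : UnitAddCircle => p • x) μ μ →
      MeasurePreserving (fun x : UnitAddCircle => q • x) μ μ → 0 < ε →
      ∃ r₀ : ℕ, ∀ r, r₀ ≤ r → ∀ M N : ℕ, 2 ≤ M → 1 ≤ N →
        ({f : Fin r → ℕ × ℕ | (∀ i, (f i).1 < M ∧ (f i).2 < N) ∧
          MeasurePreserving (fun x : UnitAddCircle => (∑ i, p ^ (f i).1 * q ^ (f i).2) • x)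
            μ μ}.ncard : ℝ) ≤ ε * ((M : ℝ) * N) ^ r) :=
  ⟨fun _ _ _ _ hp hn hθ hε => decay μ hna hp hn hθ hε,
    fun hμ _ _ _ hp hθ hε => rarely μ hna hμ hp hθ hε,
    fun hμ _ _ _ hp hq hirr hip hiq hε => rarely_pq μ hna hμ hp hq hirr hip hiq hε⟩

end Pool.Agent.Results.MP_96e181_an.SumsetDecay
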