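import Mathlib
import Pool.Agent.R477.XQ.Overlap

set_option autoImplicit false

open MeasureTheory Filter Topology
open scoped NNReal ENNReal

/-- Let `p, q ≥ 2` be multiplicatively independent (for instance `2` and `3`), `a, b` nonzero integers
and `c ≥ 0`.  The overlap of the image of `μ` under `x ↦ a x` and the image of `ν` under
`x ↦ b x + θ` is the least possible value of `μ {x | a x ∈ A} + ν {x | b x + θ ∉ A}`.

(1) Let `μ n → μ'` and `ν n → ν'` weakly, all `μ n`, `ν n` being invariant under `x ↦ p x` and
`x ↦ q x`, and let `θ n` be pairwise distinct points of `R/Z`.  If all the overlaps of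
`a μ n` and `b ν n + θ n` are at least `c`, then `c` times Lebesgue measure is below `μ'` and below
`ν'`.

(2) For an invariant `μ`, the set of the `θ` for which SOME invariant probability measure `ν` has
overlap at least `c` with `μ` (in the above sense) is finite exactly when `μ` does not dominate `c`
times Lebesgue measure.  In particular, if `μ` is singular to Lebesgue measure and `c > 0`, then
outside of a finite set of `θ` all invariant `ν` have overlap less than `c` with `μ`. -/
theorem Pool.Agent.Results.MP_96e181_an.DistinctTranslates.result :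
    ∀ p q : ℕ, 2 ≤ p → 2 ≤ q → Irrational (Real.log (p : ℝ) / Real.log (q : ℝ)) →
    ∀ a b : ℤ, a ≠ 0 → b ≠ 0 → ∀ c : ℝ≥0,
    (∀ (μ ν : ℕ → ProbabilityMeasure UnitAddCircle) (μ' ν' : ProbabilityMeasure UnitAddCircle)
        (θ : ℕ → UnitAddCircle),
      (∀ n, MeasurePreserving (fun x : UnitAddCircle => p • x)
          (μ n : Measure UnitAddCircle) (μ n : Measure UnitAddCircle)) →
      (∀ n, MeasurePreserving (fun x : UnitAddCircle => q • x)
          (μ n : Measure UnitAddCircle) (μ n : Measure UnitAddCircle)) →
      (∀ n, MeasurePreserving (fun x : UnitAddCircle => p • x)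
          (ν n : Measure UnitAddCircle) (ν n : Measure UnitAddCircle)) →
      (∀ n, MeasurePreserving (fun x : UnitAddCircle => q • x)
          (ν n : Measure UnitAddCircle) (ν n : Measure UnitAddCircle)) →
      Tendsto μ atTop (𝓝 μ') → Tendsto ν atTop (𝓝 ν') → Function.Injective θ →
      (∀ n, ∀ A : Set UnitAddCircle, MeasurableSet A →
        (c : ℝ≥0∞) ≤ (μ n : Measure UnitAddCircle) {x | a • x ∈ A}
          + (ν n : Measure UnitAddCircle) {x | b • x + θ n ∉ A}) →
      (c : ℝ≥0∞) • (volume : Measure UnitAddCircle) ≤ (μ' : Measure UnitAddCircle) ∧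
      (c : ℝ≥0∞) • (volume : Measure UnitAddCircle) ≤ (ν' : Measure UnitAddCircle)) ∧
    (∀ μ : Measure UnitAddCircle, IsProbabilityMeasure μ →
      MeasurePreserving (fun x : UnitAddCircle => p • x) μ μ →
      MeasurePreserving (fun x : UnitAddCircle => q • x) μ μ →
      ({θ : UnitAddCircle | ∃ ν : Measure UnitAddCircle, IsProbabilityMeasure ν ∧
          MeasurePreserving (fun x : UnitAddCircle => p • x) ν ν ∧
          MeasurePreserving (fun x : UnitAddCircle => q • x) ν ν ∧
          ∀ A : Set UnitAddCircle, MeasurableSet A →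
            (c : ℝ≥0∞) ≤ μ {x | a • x ∈ A} + ν {x | b • x + θ ∉ A}}.Finite ↔
        ¬ ((c : ℝ≥0∞) • (volume : Measure UnitAddCircle) ≤ μ))) := by
  intro p q hp hq hirr a b ha hb c
  refine ⟨fun μ ν μ' ν' θ hμp hμq hνp hνq hμ hν hθ h => ?_, fun μ hμ hμp hμq => ?_⟩
  · exact Pool.Agent.R477.XQ.main_seq hp hq hirr ha hb hμp hμq hνp hνq hμ hν hθ h
  · exact Pool.Agent.R477.XQ.main_iff hp hq hirr ha hb hμp hμq
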