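import Pool.Agent.R202.Rot
import Pool.Agent.R202.PMc
import Pool.Agent.R202.STP

/-!
# Multipliers `f (p ^ n)` and `f (p ^ n, q ^ m)`

Rigidity of the weakly mixing (of any entropy) `×p`, `×q` invariant measures under the
multiplications by the values of an arbitrary integer polynomial with at least two terms, along sets
of exponents of positive upper density.
-/

set_option autoImplicit false

open MeasureTheory Filter Topology Set

namespace Pool.Agent.Results.MP_96e181_an.PolynomialMultipliers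

open Pool.Agent.R202.PM

/-- `D` has positive upper density: for some `δ > 0`, infinitely often `#(D ∩ [0, N)) ≥ δ N`. -/
def PosUpperDensity (D : Set ℕ) : Prop :=
  ∃ δ : ℝ, 0 < δ ∧ ∃ᶠ N : ℕ in atTop, δ * N ≤ ({n : ℕ | n < N ∧ n ∈ D}.ncard : ℝ)

lemma coeff_volume {m : ℤ} (hm : m ≠ 0) : ∫ x : UnitAddCircle, (fourier m x : ℂ) = 0 :=
  Pool.Agent.R202.coeff_zero irrational_sqrt_two (measurePreserving_add_right volume _).map_eq hm

lemma eq_volume {μ : Measure UnitAddCircle} [IsProbabilityMeasure μ]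
    (h : ∀ a : ℤ, a ≠ 0 → co μ a = 0) : μ = volume := by
  refine Pool.Agent.R202.ext_fourier fun m => ?_
  by_cases hm : m = 0
  · subst hm
    have hv : (volume : Measure UnitAddCircle) univ = 1 := UnitAddCircle.measure_univ
    simp [measureReal_def, hv]
  · rw [coeff_volume hm]
    exact h m hm

/-- the values of the polynomial with the coefficients `c i`, `i < d`, at `p ^ n` -/
def val (p d : ℕ) (c : ℕ → ℤ) (n : ℕ) : ℤ := ∑ i ∈ Finset.range d, c i * (p : ℤ) ^ (i * n)

/-- the values of the polynomial with the coefficients `c i j`, `i < d`, `j < e`, at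
`(p ^ n, q ^ m)` -/
def val2 (p q d e : ℕ) (c : ℕ → ℕ → ℤ) (n m : ℕ) : ℤ :=
  ∑ i ∈ Finset.range d, ∑ j ∈ Finset.range e, c i j * ((p : ℤ) ^ (i * n) * (q : ℤ) ^ (j * m))

lemma val2_eq (p q d e : ℕ) (c : ℕ → ℕ → ℤ) (n m : ℕ) :
    val2 p q d e c n m = G p d (fun i => G q e (c i) m) n := by
  unfold val2 G
  refine Finset.sum_congr rfl fun i _ => ?_
  rw [Finset.sum_mul]
  exact Finset.sum_congr rfl fun j _ => by ring

theorem image_two {p q : ℕ} {μ : Measure UnitAddCircle} [IsProbabilityMeasure μ]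
    (hp : MeasurePreserving (fun x : UnitAddCircle => p • x) μ μ)
    (hq : MeasurePreserving (fun x : UnitAddCircle => q • x) μ μ) (hwp : WM p μ) (hwq : WM q μ)
    (d e : ℕ) (c : ℕ → ℕ → ℤ) {ν : Measure UnitAddCircle}
    (hD : PosUpperDensity {m | PosUpperDensity
      {n | μ.map (fun x : UnitAddCircle => val2 p q d e c n m • x) = ν}}) (a : ℤ) :
    co ν a = ∏ i ∈ Finset.range d, ∏ j ∈ Finset.range e, co μ (a * c i j) := by
  refine eq_of_dens (dev_two hq hwq d e fun i j => a * c i j) (D := {m | PosUpperDensity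
      {n | μ.map (fun x : UnitAddCircle => val2 p q d e c n m • x) = ν}}) hD fun m hm => ?_
  have hm' : PosDens {n | μ.map (fun x : UnitAddCircle => G p d (fun i => G q e (c i) m) n • x) = ν} := by
    have h1 : {n | μ.map (fun x : UnitAddCircle => G p d (fun i => G q e (c i) m) n • x) = ν} =
        {n | μ.map (fun x : UnitAddCircle => val2 p q d e c n m • x) = ν} := by
      ext n
      simp only [mem_ofPred_eq, val2_eq]
    rw [h1]
    exact hm
  rw [image_one hp hwp d _ hm' a]
  refine Finset.prod_congr rfl fun i _ => ?_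
  rw [G_smul]

/-- **Polynomial multipliers.** `T_m x = m x` on the circle, `μ` is a probability measure,
`μ^(a) = ∫ e (a x) dμ`. `T_p` is weakly mixing: `μ × μ` is ergodic for `T_p × T_p`.

(A) Let `μ` be `T_p`-invariant and weakly mixing for `T_p`, and `f` an integer polynomial with the
coefficients `c i`, `i < d`. Then for every `a` the mean over `n < N` of
`|μ^(a f (p ^ n)) - ∏ i, μ^(a c_i)| ^ 2` tends to `0`; if `T_(f (p ^ n)) μ = ν` for a set of `n` of
positive upper density, then `ν^(a) = ∏ i, μ^(a c_i)` for all `a`; if `μ` is atomless, `f` has at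
least two nonzero coefficients, and `μ` is `T_(f (p ^ n))`-invariant for a set of `n` of positive upper
density, then `μ` is Lebesgue measure.

(B) Let `μ` be invariant under `T_p` and `T_q` and weakly mixing for both, and `f (x, y)` an integer
polynomial with the coefficients `c i j`, `i < d`, `j < e`. If `T_(f (p ^ n, q ^ m)) μ = ν` for a set
of `n` of positive upper density, for a set of `m` of positive upper density, then
`ν^(a) = ∏ i, ∏ j, μ^(a c_ij)` for all `a`; if `μ` is atomless, `f` has at least two nonzero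
coefficients, and this holds for `ν = μ`, then `μ` is Lebesgue measure.

(C) Let `μ` be invariant under `T_p` and `T_q` and ergodic for the joint action (`q = 1` is allowed,
then this is ergodicity for `T_p`). For all integers `a, b` the mean over a box of exponents
`i < K.1`, `j < K.2` of `μ^(a p ^ i + b q ^ j)` tends to `μ^(a) μ^(b)` as both sides of the box tend to
infinity. If `T_(a p ^ i + b q ^ j) μ = ν` for a set of `(i, j)` of upper density one (in boxes), then
`ν^(n) = μ^(a n) μ^(b n)` for all `n`; if `ν = μ` is atomless and `a, b` are nonzero, `μ` is Lebesgue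
measure.

(D) Let the joint action be weakly mixing, that is let `μ × μ` be ergodic for the diagonal action. Then
the mean over a box of `|μ^(a p ^ i + b q ^ j) - μ^(a) μ^(b)| ^ 2` tends to `0`, and both other
assertions of (C) hold for sets of `(i, j)` of positive upper density. -/
theorem result :
    (∀ (p : ℕ) (μ : Measure UnitAddCircle), IsProbabilityMeasure μ →
      MeasurePreserving (fun x : UnitAddCircle => p • x) μ μ →
      Ergodic (fun z : UnitAddCircle × UnitAddCircle => (p • z.1, p • z.2)) (μ.prod μ) →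
      ∀ (d : ℕ) (c : ℕ → ℤ),
        (∀ a : ℤ, Tendsto (fun N : ℕ => (N : ℝ)⁻¹ * ∑ n ∈ Finset.range N,
          ‖(∫ x, fourier (a * val p d c n) x ∂μ) -
            ∏ i ∈ Finset.range d, ∫ x, fourier (a * c i) x ∂μ‖ ^ 2) atTop (𝓝 0)) ∧
        (∀ ν : Measure UnitAddCircle,
          PosUpperDensity {n | μ.map (fun x : UnitAddCircle => val p d c n • x) = ν} →
          ∀ a : ℤ, ∫ x, fourier a x ∂ν = ∏ i ∈ Finset.range d, ∫ x, fourier (a * c i) x ∂μ) ∧
        ((∀ x, μ {x} = 0) → (∃ i < d, ∃ j < d, i ≠ j ∧ c i ≠ 0 ∧ c j ≠ 0) →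
          PosUpperDensity {n | MeasurePreserving (fun x : UnitAddCircle => val p d c n • x) μ μ} →
          μ = volume)) ∧
    (∀ (p q : ℕ) (μ : Measure UnitAddCircle), IsProbabilityMeasure μ →
      MeasurePreserving (fun x : UnitAddCircle => p • x) μ μ →
      MeasurePreserving (fun x : UnitAddCircle => q • x) μ μ →
      Ergodic (fun z : UnitAddCircle × UnitAddCircle => (p • z.1, p • z.2)) (μ.prod μ) →
      Ergodic (fun z : UnitAddCircle × UnitAddCircle => (q • z.1, q • z.2)) (μ.prod μ) →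
      ∀ (d e : ℕ) (c : ℕ → ℕ → ℤ),
        (∀ ν : Measure UnitAddCircle, PosUpperDensity {m | PosUpperDensity
          {n | μ.map (fun x : UnitAddCircle => val2 p q d e c n m • x) = ν}} →
          ∀ a : ℤ, ∫ x, fourier a x ∂ν =
            ∏ i ∈ Finset.range d, ∏ j ∈ Finset.range e, ∫ x, fourier (a * c i j) x ∂μ) ∧
        ((∀ x, μ {x} = 0) →
          (∃ i < d, ∃ j < e, ∃ i' < d, ∃ j' < e, (i, j) ≠ (i', j') ∧ c i j ≠ 0 ∧ c i' j' ≠ 0) →
          PosUpperDensity {m | PosUpperDensity
            {n | MeasurePreserving (fun x : UnitAddCircle => val2 p q d e c n m • x) μ μ}} →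
          μ = volume)) ∧
    (∀ (p q : ℕ) (μ : Measure UnitAddCircle), IsProbabilityMeasure μ →
      MeasurePreserving (fun x : UnitAddCircle => p • x) μ μ →
      MeasurePreserving (fun x : UnitAddCircle => q • x) μ μ →
      (∀ E : Set UnitAddCircle, MeasurableSet E → (fun x : UnitAddCircle => p • x) ⁻¹' E = E →
        (fun x : UnitAddCircle => q • x) ⁻¹' E = E → μ E = 0 ∨ μ E = 1) →
      ∀ a b : ℤ,
        Tendsto (fun K : ℕ × ℕ => (∑ i ∈ Finset.range K.1, ∑ j ∈ Finset.range K.2,
          ∫ x, (fourier (a * (p : ℤ) ^ i + b * (q : ℤ) ^ j) x : ℂ) ∂μ) / ((K.1 : ℂ) * K.2)) atTop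
          (𝓝 ((∫ x, (fourier a x : ℂ) ∂μ) * ∫ x, (fourier b x : ℂ) ∂μ)) ∧
        ∀ ν : Measure UnitAddCircle, IsProbabilityMeasure ν →
          (∀ δ : ℝ, 0 < δ → ∃ᶠ K : ℕ × ℕ in atTop,
            ({k : ℕ × ℕ | μ.map (fun x : UnitAddCircle => (a * (p : ℤ) ^ k.1 + b * (q : ℤ) ^ k.2) • x) ≠ ν ∧
              k.1 < K.1 ∧ k.2 < K.2}.ncard : ℝ) ≤ δ * (K.1 * K.2)) →
          (∀ n : ℤ, ∫ x, (fourier n x : ℂ) ∂ν =
            (∫ x, (fourier (a * n) x : ℂ) ∂μ) * ∫ x, (fourier (b * n) x : ℂ) ∂μ) ∧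
          (ν = μ → (∀ x, μ {x} = 0) → a ≠ 0 → b ≠ 0 → μ = volume)) ∧
    (∀ (p q : ℕ) (μ : Measure UnitAddCircle), IsProbabilityMeasure μ →
      MeasurePreserving (fun x : UnitAddCircle => p • x) μ μ →
      MeasurePreserving (fun x : UnitAddCircle => q • x) μ μ →
      (∀ E : Set (UnitAddCircle × UnitAddCircle), MeasurableSet E →
        (fun z : UnitAddCircle × UnitAddCircle => (p • z.1, p • z.2)) ⁻¹' E = E →
        (fun z : UnitAddCircle × UnitAddCircle => (q • z.1, q • z.2)) ⁻¹' E = E →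
          (μ.prod μ) E = 0 ∨ (μ.prod μ) E = 1) →
      ∀ a b : ℤ,
        Tendsto (fun K : ℕ × ℕ => (∑ i ∈ Finset.range K.1, ∑ j ∈ Finset.range K.2,
          ‖(∫ x, (fourier (a * (p : ℤ) ^ i + b * (q : ℤ) ^ j) x : ℂ) ∂μ) -
            (∫ x, (fourier a x : ℂ) ∂μ) * ∫ x, (fourier b x : ℂ) ∂μ‖ ^ 2) / ((K.1 : ℝ) * K.2)) atTop
          (𝓝 0) ∧
        ∀ ν : Measure UnitAddCircle, IsProbabilityMeasure ν →
          (∃ δ : ℝ, 0 < δ ∧ ∃ᶠ K : ℕ × ℕ in atTop, δ * (K.1 * K.2) ≤
            ({k : ℕ × ℕ | μ.map (fun x : UnitAddCircle => (a * (p : ℤ) ^ k.1 + b * (q : ℤ) ^ k.2) • x) = ν ∧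
              k.1 < K.1 ∧ k.2 < K.2}.ncard : ℝ)) →
          (∀ n : ℤ, ∫ x, (fourier n x : ℂ) ∂ν =
            (∫ x, (fourier (a * n) x : ℂ) ∂μ) * ∫ x, (fourier (b * n) x : ℂ) ∂μ) ∧
          (ν = μ → (∀ x, μ {x} = 0) → a ≠ 0 → b ≠ 0 → μ = volume)) := by
  have hfin : ∀ (μ ν : Measure UnitAddCircle) [IsProbabilityMeasure μ] (a b : ℤ),
      (∀ n : ℤ, ∫ x, (fourier n x : ℂ) ∂ν =
        (∫ x, (fourier (a * n) x : ℂ) ∂μ) * ∫ x, (fourier (b * n) x : ℂ) ∂μ) →
      ν = μ → (∀ x, μ {x} = 0) → a ≠ 0 → b ≠ 0 → μ = volume := by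
    intro μ ν _ a b h hνμ hna ha hb
    subst hνμ
    refine eq_volume fun w hw => chain_rigid hna ha hb (fun n => ?_) hw
    have h1 := h n
    unfold co
    rw [h1, norm_mul, mul_comm a n, mul_comm b n]
  refine ⟨fun p μ hμ hp herg d c => ?_, fun p q μ hμ hp hq hep heq d e c => ?_,
    fun p q μ hμ hp hq herg a b => ?_, fun p q μ hμ hp hq herg a b => ?_⟩
  · have hw := wm_of_erg hp herg
    refine ⟨fun a => ?_, fun ν hD a => image_one hp hw d c hD a, fun hna hc hD => ?_⟩
    · have h1 := dev hp hw d fun i => a * c i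
      refine h1.congr fun N => ?_
      congr 1
      refine Finset.sum_congr rfl fun n _ => ?_
      rw [← G_smul]
      rfl
    · obtain ⟨i, hi, j, hj, hij, hci, hcj⟩ := hc
      have hD' : PosDens {n | μ.map (fun x : UnitAddCircle => G p d c n • x) = μ} := by
        obtain ⟨δ, hδ, hfr⟩ := hD
        refine ⟨δ, hδ, hfr.mono fun N hN => hN.trans ?_⟩
        have : {n : ℕ | n < N ∧ n ∈ {n | MeasurePreserving (fun x : UnitAddCircle => val p d c n • x) μ μ}} ⊆
            {n : ℕ | n < N ∧ n ∈ {n | μ.map (fun x : UnitAddCircle => G p d c n • x) = μ}} := by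
          rintro n ⟨h1, h2⟩
          exact ⟨h1, h2.map_eq⟩
        exact_mod_cast Set.ncard_le_ncard this ((Set.finite_Iio N).subset fun n hn => hn.1)
      have himg := fun a => image_one hp hw d c hD' a
      refine eq_volume fun a ha => chain_rigid hna hci hcj (fun b => ?_) ha
      rw [himg b, norm_prod]
      exact prod_le_two _ (fun k => ‖co μ (b * c k)‖) (fun _ => norm_nonneg _) (fun _ => co_norm μ _)
        (Finset.mem_range.2 hi) (Finset.mem_range.2 hj) hij
  · have hwp := wm_of_erg hp hep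
    have hwq := wm_of_erg hq heq
    refine ⟨fun ν hD a => image_two hp hq hwp hwq d e c hD a, fun hna hc hD => ?_⟩
    obtain ⟨i, hi, j, hj, i', hi', j', hj', hij, hci, hcj⟩ := hc
    have hD' : PosUpperDensity {m | PosUpperDensity
        {n | μ.map (fun x : UnitAddCircle => val2 p q d e c n m • x) = μ}} := by
      obtain ⟨δ, hδ, hfr⟩ := hD
      refine ⟨δ, hδ, hfr.mono fun N hN => hN.trans ?_⟩
      have : {m : ℕ | m < N ∧ m ∈ {m | PosUpperDensity
            {n | MeasurePreserving (fun x : UnitAddCircle => val2 p q d e c n m • x) μ μ}}} ⊆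
          {m : ℕ | m < N ∧ m ∈ {m | PosUpperDensity
            {n | μ.map (fun x : UnitAddCircle => val2 p q d e c n m • x) = μ}}} := by
        rintro m ⟨h1, δ', hδ', hfr'⟩
        refine ⟨h1, δ', hδ', hfr'.mono fun M hM => hM.trans ?_⟩
        have h3 : {n : ℕ | n < M ∧ n ∈ {n | MeasurePreserving
              (fun x : UnitAddCircle => val2 p q d e c n m • x) μ μ}} ⊆
            {n : ℕ | n < M ∧ n ∈ {n | μ.map (fun x : UnitAddCircle => val2 p q d e c n m • x) = μ}} := by
          rintro n ⟨h4, h5⟩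
          exact ⟨h4, h5.map_eq⟩
        exact_mod_cast Set.ncard_le_ncard h3 ((Set.finite_Iio M).subset fun n hn => hn.1)
      exact_mod_cast Set.ncard_le_ncard this ((Set.finite_Iio N).subset fun n hn => hn.1)
    have himg := fun a => image_two hp hq hwp hwq d e c hD' a
    refine eq_volume fun a ha => chain_rigid hna hci hcj (fun b => ?_) ha
    rw [himg b, ← Finset.prod_product', norm_prod]
    exact prod_le_two _ (fun k : ℕ × ℕ => ‖co μ (b * c k.1 k.2)‖) (fun _ => norm_nonneg _)
      (fun _ => co_norm μ _) (k := (i, j)) (l := (i', j'))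
      (Finset.mem_product.2 ⟨Finset.mem_range.2 hi, Finset.mem_range.2 hj⟩)
      (Finset.mem_product.2 ⟨Finset.mem_range.2 hi', Finset.mem_range.2 hj'⟩) hij
  · refine ⟨Pool.Agent.R202.STP.means_coeff p q μ hp hq herg a b, fun ν hν h => ?_⟩
    have h1 := fun n => Pool.Agent.R202.STP.image_erg p q μ hp hq herg a b ν h n
    exact ⟨h1, fun h2 h3 h4 h5 => hfin μ ν a b h1 h2 h3 h4 h5⟩
  · refine ⟨Pool.Agent.R202.STP.means_dev p q μ hp hq herg a b, fun ν hν h => ?_⟩
    have h1 := fun n => Pool.Agent.R202.STP.image_mix p q μ hp hq herg a b ν h n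
    exact ⟨h1, fun h2 h3 h4 h5 => hfin μ ν a b h1 h2 h3 h4 h5⟩

end Pool.Agent.Results.MP_96e181_an.PolynomialMultipliers
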